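import Pool.Agent.W533.LP.Stm
import Pool.Agent.W533.LP.Stm3

/-! Project LP: second moment of an increment of the point to point time. -/

set_option autoImplicit false

namespace Pool.Agent.W74.LP

open MeasureTheory ProbabilityTheory Filter Topology
open Pool.Agent.W533.LP

theorem sub {Ω ι ι' : Type} [MeasurableSpace Ω] {μ : Measure Ω} {p : ι → ℝ} {X : ι → Ω → ℕ}
    (h : GeoFam μ p X) (g : ι' → ι) (hg : Function.Injective g) :
    GeoFam μ (fun i => p (g i)) (fun i => X (g i)) :=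
  ⟨h.prob, fun _ => h.pos _, fun _ => h.meas _, h.indep.precomp hg, fun _ _ => h.law _ _⟩

/-- the point to point time is at most the sum of all weights -/
theorem T_le (W : ℕ → ℕ → ℕ) (m n : ℕ) :
    T W m n ≤ ∑ i ∈ Finset.range m, ∑ j ∈ Finset.range n, W i j := by
  unfold T
  induction m generalizing n with
  | zero =>
    induction n with
    | zero => simp [G]
    | succ j ih => simp only [G, zero]; simpa using ih
  | succ i ih =>
    induction n with
    | zero =>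
      have := ih 0
      simp only [G, zero, Finset.range_zero, Finset.sum_empty, Finset.sum_const_zero] at this ⊢
      omega
    | succ j ihj =>
      simp only [G]
      have h1 := ih (j + 1)
      have h2 : ∑ i' ∈ Finset.range (i + 1), ∑ j' ∈ Finset.range j, W i' j' + W i j ≤
          ∑ i' ∈ Finset.range (i + 1), ∑ j' ∈ Finset.range (j + 1), W i' j' := by
        rw [Finset.sum_range_succ, Finset.sum_range_succ _ i, add_assoc,
          ← Finset.sum_range_succ (fun j' => W i j') j]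
        refine Nat.add_le_add_right (Finset.sum_le_sum fun i' _ => ?_) _
        rw [Finset.sum_range_succ]
        exact Nat.le_add_right _ _
      have h3 : ∑ i' ∈ Finset.range i, ∑ j' ∈ Finset.range (j + 1), W i' j' + W i j ≤
          ∑ i' ∈ Finset.range (i + 1), ∑ j' ∈ Finset.range (j + 1), W i' j' := by
        rw [Finset.sum_range_succ _ i]
        refine Nat.add_le_add_left ?_ _
        rw [Finset.sum_range_succ]
        exact Nat.le_add_left _ _
      omega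

theorem memLp4_int {Ω : Type} [MeasurableSpace Ω] {μ : Measure Ω} {f : Ω → ℝ}
    (h : MemLp f 4 μ) : Integrable (fun ω => f ω ^ 4) μ := by
  have h1 : MemLp f ((4 : ℕ) : ENNReal) μ := by exact_mod_cast h
  have h2 := h1.integrable_norm_pow (by norm_num)
  refine h2.congr (Filter.Eventually.of_forall fun ω => ?_)
  simp only [Real.norm_eq_abs]
  rw [show (4 : ℕ) = 2 * 2 by norm_num, pow_mul, sq_abs, ← pow_mul]

theorem box4 (hM : PMom) (q : ℝ) (hq0 : 0 < q) (hq1 : q < 1) : ∃ C₈ : ℝ, 0 < C₈ ∧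
    ∀ {Ω : Type} [MeasurableSpace Ω] (μ : Measure Ω) (W : ℕ → ℕ → Ω → ℕ), Bulk μ q W →
    ∀ m n k : ℕ, m ≤ 2 * k → n ≤ 2 * k → 1 ≤ k → ∃ S : Ω → ℝ,
      (∀ ω, (Tr W m n ω : ℝ) ≤ S ω) ∧ MemLp S 4 μ ∧ ∫ ω, S ω ^ 4 ∂μ ≤ C₈ * (k : ℝ) ^ 8 := by
  obtain ⟨C1, hC1, hM⟩ := hM q hq1
  have hme : 0 < mean q := div_pos hq0 (by linarith)
  refine ⟨8 * (16 * C1 + 256 * mean q ^ 4), by positivity, ?_⟩
  intro Ω _ μ W hB m n k hm hn hk
  have hP := hB.prob
  set g : Fin (m * n) → ℕ × ℕ := fun x => (((finProdFinEquiv.symm x).1 : ℕ),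
    ((finProdFinEquiv.symm x).2 : ℕ)) with hg
  have hgi : Function.Injective g := by
    intro x y hxy
    simp only [hg, Prod.mk.injEq] at hxy
    exact finProdFinEquiv.symm.injective (Prod.ext (Fin.ext hxy.1) (Fin.ext hxy.2))
  have hGF := sub hB g hgi
  obtain ⟨h1, h2, -, h4⟩ := hM μ q (m * n) (fun i ω => W (g i).1 (g i).2 ω) le_rfl hGF
  refine ⟨fun ω => ∑ i, (W (g i).1 (g i).2 ω : ℝ), ?_, h1, ?_⟩
  · intro ω
    have e1 : ∑ i : Fin (m * n), (W (g i).1 (g i).2 ω : ℝ) =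
        ((∑ i ∈ Finset.range m, ∑ j ∈ Finset.range n, W i j ω : ℕ) : ℝ) := by
      push_cast
      rw [Finset.sum_range]
      simp_rw [Finset.sum_range (fun j => ((W _ j ω : ℕ) : ℝ))]
      rw [← Fintype.sum_prod_type' (f := fun (i : Fin m) (j : Fin n) => ((W i j ω : ℕ) : ℝ))]
      exact Equiv.sum_comp finProdFinEquiv.symm
        (fun x : Fin m × Fin n => ((W x.1 x.2 ω : ℕ) : ℝ))
    change (Tr W m n ω : ℝ) ≤ ∑ i : Fin (m * n), (W (g i).1 (g i).2 ω : ℝ)
    rw [e1]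
    exact_mod_cast T_le (fun i j => W i j ω) m n
  · set X : Ω → ℝ := fun ω => ∑ i, (W (g i).1 (g i).2 ω : ℝ) with hX
    set c : ℝ := ((m * n : ℕ) : ℝ) * mean q with hc
    have hXc : MemLp (fun ω => X ω - c) 4 μ := h1.sub (memLp_const c)
    have e2 : ∀ ω, X ω ^ 4 ≤ 8 * ((X ω - c) ^ 4 + c ^ 4) := by
      intro ω
      have h5 : 0 ≤ (X ω - c - c) ^ 2 * (7 * (X ω - c) ^ 2 + 10 * (X ω - c) * c + 7 * c ^ 2) := by
        refine mul_nonneg (sq_nonneg _) ?_
        nlinarith [sq_nonneg (X ω - c + c), sq_nonneg (X ω - c), sq_nonneg c]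
      nlinarith
    have e3 : ∫ ω, X ω ^ 4 ∂μ ≤ ∫ ω, 8 * ((X ω - c) ^ 4 + c ^ 4) ∂μ := by
      refine integral_mono (memLp4_int h1) ?_ e2
      exact ((memLp4_int hXc).add (integrable_const _)).const_mul _
    rw [integral_const_mul, integral_add (memLp4_int hXc) (integrable_const _)] at e3
    simp only [integral_const, probReal_univ, one_smul] at e3
    have hN : ((m * n : ℕ) : ℝ) ≤ 4 * (k : ℝ) ^ 2 := by
      have : m * n ≤ 4 * k ^ 2 := by
        calc m * n ≤ (2 * k) * (2 * k) := Nat.mul_le_mul hm hn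
          _ = 4 * k ^ 2 := by ring
      exact_mod_cast this
    have hN0 : (0 : ℝ) ≤ ((m * n : ℕ) : ℝ) := Nat.cast_nonneg _
    have hk1 : (1 : ℝ) ≤ (k : ℝ) := by exact_mod_cast hk
    have e4 : ∫ ω, (X ω - c) ^ 4 ∂μ ≤ C1 * (16 * (k : ℝ) ^ 8) := by
      refine h4.trans (mul_le_mul_of_nonneg_left ?_ hC1.le)
      calc ((m * n : ℕ) : ℝ) ^ 2 ≤ (4 * (k : ℝ) ^ 2) ^ 2 := pow_le_pow_left₀ hN0 hN 2
        _ = 16 * (k : ℝ) ^ 4 := by ring
        _ ≤ 16 * (k : ℝ) ^ 8 := by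
          have : (k : ℝ) ^ 4 ≤ (k : ℝ) ^ 8 := pow_le_pow_right₀ hk1 (by norm_num)
          linarith
    have e5 : c ^ 4 ≤ 256 * mean q ^ 4 * (k : ℝ) ^ 8 := by
      rw [hc, mul_pow]
      calc ((m * n : ℕ) : ℝ) ^ 4 * mean q ^ 4 ≤ (4 * (k : ℝ) ^ 2) ^ 4 * mean q ^ 4 :=
            mul_le_mul_of_nonneg_right (pow_le_pow_left₀ hN0 hN 4) (by positivity)
        _ = _ := by ring
    calc ∫ ω, X ω ^ 4 ∂μ ≤ _ := e3
      _ ≤ 8 * (C1 * (16 * (k : ℝ) ^ 8) + 256 * mean q ^ 4 * (k : ℝ) ^ 8) := by linarith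
      _ = _ := by ring

section sys

variable {Ω : Type} [MeasurableSpace Ω] {μ : Measure Ω} {q a : ℝ} {I J : ℕ → Ω → ℕ}
  {W : ℕ → ℕ → Ω → ℕ}

/-- Burke increments -/
theorem incr (hB : PBurke) (hM : PMom) (hA : AMeas) (hq : 0 < q) (hqa : q < a) (ha : a < 1)
    (hS : Sys0 μ q a I J W) (m s n' : ℕ) :
    MemLp (fun ω => (Gr I J W (m + s) n' ω : ℝ) - Gr I J W m n' ω) 4 μ ∧
    ∫ ω, ((Gr I J W (m + s) n' ω : ℝ) - Gr I J W m n' ω) ∂μ = s * mean a ∧
    variance (fun ω => (Gr I J W (m + s) n' ω : ℝ) - Gr I J W m n' ω) μ = s * vari a := by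
  obtain ⟨C, -, hM⟩ := hM a ha
  have h1 := hB μ q a I J W (fun _ : Empty => (0 : ℝ)) (fun _ _ => 0) hq hqa ha hS (m + s) n'
  have h2 := sub h1 (fun i : Fin s => Sum.inl (Fin.natAdd m i)) (by
    intro i j hij
    have := Sum.inl.inj hij
    exact Fin.ext (by simpa using congrArg Fin.val this))
  obtain ⟨h3, h4, h5, -⟩ := hM μ a s (fun i ω => Ninc I J W n' (m + i) ω) le_rfl h2
  have hmono : ∀ i ω, Gr I J W i n' ω ≤ Gr I J W (i + 1) n' ω := fun i ω =>
    (hA.2.2 _ _ _ i n').1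
  have e : (fun ω => ∑ i : Fin s, ((Ninc I J W n' (m + i) ω : ℕ) : ℝ)) =
      fun ω => (Gr I J W (m + s) n' ω : ℝ) - Gr I J W m n' ω := by
    ext ω
    rw [← Finset.sum_range (fun i => ((Ninc I J W n' (m + i) ω : ℕ) : ℝ))]
    have e1 : ∀ i ∈ Finset.range s, ((Ninc I J W n' (m + i) ω : ℕ) : ℝ) =
        (Gr I J W (m + (i + 1)) n' ω : ℝ) - (Gr I J W (m + i) n' ω : ℝ) := by
      intro i _
      unfold Ninc
      rw [Nat.cast_sub (hmono (m + i) ω)]
      rfl
    rw [Finset.sum_congr rfl e1]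
    exact Finset.sum_range_sub (fun i => (Gr I J W (m + i) n' ω : ℝ)) s
  rw [e] at h3 h4 h5
  exact ⟨h3, h4, h5⟩

theorem mom2 [IsProbabilityMeasure μ] {X : Ω → ℝ} (hX : MemLp X 4 μ) (M V c : ℝ)
    (hM : ∫ ω, X ω ∂μ = M) (hV : variance X μ = V) :
    Integrable (fun ω => (X ω - c) ^ 2) μ ∧ ∫ ω, (X ω - c) ^ 2 ∂μ = V + (M - c) ^ 2 := by
  have h2 : MemLp X 2 μ := hX.mono_exponent (by norm_num)
  have h1 : Integrable X μ := h2.integrable (by norm_num)
  have hs : Integrable (fun ω => X ω ^ 2) μ := h2.integrable_sq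
  have hi : Integrable (fun ω => (X ω - c) ^ 2) μ := (h2.sub (memLp_const c)).integrable_sq
  refine ⟨hi, ?_⟩
  rw [variance_eq_sub h2] at hV
  have e : (fun ω => (X ω - c) ^ 2) = fun ω => X ω ^ 2 - 2 * c * X ω + c ^ 2 := by
    ext ω; ring
  have hi1 : Integrable (fun ω => X ω ^ 2 - 2 * c * X ω) μ := hs.sub (h1.const_mul _)
  rw [e, integral_add hi1 (integrable_const _),
    integral_sub hs (h1.const_mul _), integral_const_mul, hM]
  simp only [integral_const, probReal_univ, one_smul]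
  have e2 : ∫ ω, X ω ^ 2 ∂μ = V + M ^ 2 := by
    rw [← hV, hM]
    simp
  rw [e2]; ring

/-- upper deviations -/
theorem upper (hB : PBurke) (hM : PMom) (hA : AMeas) (hD : DSand) (hq : 0 < q) (hqa : q < a)
    (ha : a < 1) (hS : Sys0 μ q a I J W) (m s n' : ℕ) (c L C₈ : ℝ) (hc : 0 ≤ c) (hL : 0 < L)
    (S : Ω → ℝ) (hS1 : ∀ ω, (Tr W (m + s) n' ω : ℝ) ≤ S ω) (hS2 : MemLp S 4 μ)
    (hS3 : ∫ ω, S ω ^ 4 ∂μ ≤ C₈ * L ^ 2) :
    ∫ ω, (max ((Tr W (m + s) n' ω : ℝ) - Tr W m n' ω - c) 0) ^ 2 ∂μ ≤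
      s * vari a + (s * mean a - c) ^ 2 + C₈ +
        L ^ 2 * μ.real {ω | Gr I zr W m n' ω < Gr zr J W m n' ω} := by
  have hP := hS.prob
  obtain ⟨h1, h2, h3⟩ := incr hB hM hA hq hqa ha hS m s n'
  obtain ⟨h4, h5⟩ := mom2 h1 _ _ c h2 h3
  have hz : (zr : ℕ → Ω → ℕ) = fun _ _ => 0 := rfl
  have hIm : ∀ i, Measurable (I i) := fun i => hS.meas (Sum.inl i)
  have hJm : ∀ j, Measurable (J j) := fun j => hS.meas (Sum.inr (Sum.inl j))
  have hWm : ∀ i j, Measurable (W i j) := fun i j => hS.meas (Sum.inr (Sum.inr (Sum.inl (i, j))))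
  have hzm : ∀ i, Measurable (zr i : Ω → ℕ) := fun i => measurable_const
  set E : Set Ω := {ω | Gr I zr W m n' ω < Gr zr J W m n' ω} with hE
  have hEm : MeasurableSet E :=
    measurableSet_lt (hA.2.1 I zr W hIm hzm hWm m n') (hA.2.1 zr J W hzm hJm hWm m n')
  have hpt : ∀ ω, (max ((Tr W (m + s) n' ω : ℝ) - Tr W m n' ω - c) 0) ^ 2 ≤
      ((Gr I J W (m + s) n' ω : ℝ) - Gr I J W m n' ω - c) ^ 2 + S ω ^ 4 / L ^ 2 +
        E.indicator (fun _ => L ^ 2) ω := by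
    intro ω
    have hS4 : 0 ≤ S ω ^ 4 / L ^ 2 := by positivity
    by_cases hω : ω ∈ E
    · rw [Set.indicator_of_mem hω]
      have hT0 : (0 : ℝ) ≤ Tr W m n' ω := Nat.cast_nonneg _
      have hTS : (0 : ℝ) ≤ Tr W (m + s) n' ω := Nat.cast_nonneg _
      have h6 : max ((Tr W (m + s) n' ω : ℝ) - Tr W m n' ω - c) 0 ≤ S ω :=
        max_le (by linarith [hS1 ω]) (hTS.trans (hS1 ω))
      have h7 : (max ((Tr W (m + s) n' ω : ℝ) - Tr W m n' ω - c) 0) ^ 2 ≤ S ω ^ 2 :=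
        pow_le_pow_left₀ (le_max_right _ _) h6 2
      have h8 : S ω ^ 2 ≤ S ω ^ 4 / L ^ 2 + L ^ 2 := by
        have h9 : 0 ≤ (S ω ^ 2 / L - L) ^ 2 := sq_nonneg _
        have h10 : (S ω ^ 2 / L - L) ^ 2 = S ω ^ 4 / L ^ 2 - 2 * S ω ^ 2 + L ^ 2 := by
          field_simp
          ring
        rw [h10] at h9
        nlinarith [sq_nonneg (S ω)]
      have h11 : 0 ≤ ((Gr I J W (m + s) n' ω : ℝ) - Gr I J W m n' ω - c) ^ 2 := sq_nonneg _
      linarith
    · rw [Set.indicator_of_notMem hω, add_zero]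
      have hle : Gr zr J W m n' ω ≤ Gr I zr W m n' ω := not_lt.1 hω
      have h6 := (hD (fun i => I i ω) (fun j => J j ω) (fun i j => W i j ω) m n').1 hle s
      have h7 : (Tr W (m + s) n' ω : ℝ) + Gr I J W m n' ω ≤
          Gr I J W (m + s) n' ω + Tr W m n' ω := by
        exact_mod_cast h6
      have h8 : (max ((Tr W (m + s) n' ω : ℝ) - Tr W m n' ω - c) 0) ^ 2 ≤
          ((Gr I J W (m + s) n' ω : ℝ) - Gr I J W m n' ω - c) ^ 2 := by
        rcases le_total ((Tr W (m + s) n' ω : ℝ) - Tr W m n' ω - c) 0 with h9 | h9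
        · rw [max_eq_right h9]
          nlinarith [sq_nonneg ((Gr I J W (m + s) n' ω : ℝ) - Gr I J W m n' ω - c)]
        · rw [max_eq_left h9]
          exact pow_le_pow_left₀ h9 (by linarith) 2
      linarith
  have hi1 : Integrable (fun ω => S ω ^ 4 / L ^ 2) μ := (memLp4_int hS2).div_const _
  have hi2 : Integrable (E.indicator (fun _ => L ^ 2)) μ :=
    (integrable_const _).indicator hEm
  have hfin := integral_mono_of_nonneg (μ := μ) (Eventually.of_forall fun ω => by positivity)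
    ((h4.add hi1).add hi2) (Eventually.of_forall hpt)
  refine hfin.trans ?_
  have e1 : ∫ ω, (((fun ω => ((Gr I J W (m + s) n' ω : ℝ) - Gr I J W m n' ω - c) ^ 2) +
      (fun ω => S ω ^ 4 / L ^ 2)) + E.indicator (fun _ => L ^ 2)) ω ∂μ =
      s * vari a + (s * mean a - c) ^ 2 + (∫ ω, S ω ^ 4 ∂μ) / L ^ 2 + L ^ 2 * μ.real E := by
    rw [integral_add' (h4.add hi1) hi2, integral_add' h4 hi1, h5, integral_div,
      integral_indicator hEm, setIntegral_const, smul_eq_mul, mul_comm (μ.real E)]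
  rw [e1]
  have e2 : (∫ ω, S ω ^ 4 ∂μ) / L ^ 2 ≤ C₈ := by
    rw [div_le_iff₀ (by positivity)]; exact hS3
  linarith

/-- lower deviations -/
theorem lower (hB : PBurke) (hM : PMom) (hA : AMeas) (hD : DSand) (hq : 0 < q) (hqa : q < a)
    (ha : a < 1) (hS : Sys0 μ q a I J W) (m s n' : ℕ) (c : ℝ) (hc : 0 ≤ c) :
    ∫ ω, (max (c - ((Tr W (m + s) n' ω : ℝ) - Tr W m n' ω)) 0) ^ 2 ∂μ ≤
      s * vari a + (s * mean a - c) ^ 2 +
        c ^ 2 * μ.real {ω | Gr zr J W (m + s) n' ω < Gr I zr W (m + s) n' ω} := by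
  have hP := hS.prob
  obtain ⟨h1, h2, h3⟩ := incr hB hM hA hq hqa ha hS m s n'
  obtain ⟨h4, h5⟩ := mom2 h1 _ _ c h2 h3
  have hIm : ∀ i, Measurable (I i) := fun i => hS.meas (Sum.inl i)
  have hJm : ∀ j, Measurable (J j) := fun j => hS.meas (Sum.inr (Sum.inl j))
  have hWm : ∀ i j, Measurable (W i j) := fun i j => hS.meas (Sum.inr (Sum.inr (Sum.inl (i, j))))
  have hzm : ∀ i, Measurable (zr i : Ω → ℕ) := fun i => measurable_const
  set E : Set Ω := {ω | Gr zr J W (m + s) n' ω < Gr I zr W (m + s) n' ω} with hE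
  have hEm : MeasurableSet E :=
    measurableSet_lt (hA.2.1 zr J W hzm hJm hWm (m + s) n') (hA.2.1 I zr W hIm hzm hWm (m + s) n')
  have hmono : ∀ (k : ℕ) ω, Tr W m n' ω ≤ Tr W (m + k) n' ω := by
    intro k ω
    induction k with
    | zero => exact le_rfl
    | succ k ih => exact ih.trans (hA.2.2 _ _ _ (m + k) n').1
  have hpt : ∀ ω, (max (c - ((Tr W (m + s) n' ω : ℝ) - Tr W m n' ω)) 0) ^ 2 ≤
      ((Gr I J W (m + s) n' ω : ℝ) - Gr I J W m n' ω - c) ^ 2 +
        E.indicator (fun _ => c ^ 2) ω := by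
    intro ω
    have h11 : 0 ≤ ((Gr I J W (m + s) n' ω : ℝ) - Gr I J W m n' ω - c) ^ 2 := sq_nonneg _
    by_cases hω : ω ∈ E
    · rw [Set.indicator_of_mem hω]
      have h6 : (Tr W m n' ω : ℝ) ≤ Tr W (m + s) n' ω := by exact_mod_cast hmono s ω
      have h7 : (max (c - ((Tr W (m + s) n' ω : ℝ) - Tr W m n' ω)) 0) ^ 2 ≤ c ^ 2 :=
        pow_le_pow_left₀ (le_max_right _ _) (max_le (by linarith) hc) 2
      linarith
    · rw [Set.indicator_of_notMem hω, add_zero]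
      have hle : Gr I zr W (m + s) n' ω ≤ Gr zr J W (m + s) n' ω := not_lt.1 hω
      have h6 := (hD (fun i => I i ω) (fun j => J j ω) (fun i j => W i j ω) (m + s) n').2 hle s
        (Nat.le_add_left _ _)
      rw [Nat.add_sub_cancel] at h6
      have h7 : (Gr I J W (m + s) n' ω : ℝ) + Tr W m n' ω ≤
          Tr W (m + s) n' ω + Gr I J W m n' ω := by
        exact_mod_cast h6
      rcases le_total (c - ((Tr W (m + s) n' ω : ℝ) - Tr W m n' ω)) 0 with h9 | h9
      · rw [max_eq_right h9]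
        linarith
      · rw [max_eq_left h9]
        have e0 : ((Gr I J W (m + s) n' ω : ℝ) - Gr I J W m n' ω - c) ^ 2 =
            (c - ((Gr I J W (m + s) n' ω : ℝ) - Gr I J W m n' ω)) ^ 2 := by ring
        rw [e0]
        exact pow_le_pow_left₀ h9 (by linarith) 2
  have hi2 : Integrable (E.indicator (fun _ => c ^ 2)) μ :=
    (integrable_const _).indicator hEm
  have hfin := integral_mono_of_nonneg (μ := μ) (Eventually.of_forall fun ω => by positivity)
    (h4.add hi2) (Eventually.of_forall hpt)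
  refine hfin.trans (le_of_eq ?_)
  rw [integral_add' h4 hi2, h5, integral_indicator hEm, setIntegral_const, smul_eq_mul,
    mul_comm (μ.real E)]

end sys

/-- the parameters -/
noncomputable def dl (n : ℕ) : ℝ := (n : ℝ) ^ (-(6 / 25) : ℝ)

theorem ev_cond (q C : ℝ) (hdd : 0 < dd q) (hC : 1 ≤ C) : ∀ᶠ n : ℕ in atTop, 16 ≤ n ∧
    dl n ≤ dd q ∧ 4 * C * Real.sqrt n ≤ n * dl n ∧
    (n : ℝ) ^ 8 * (C * Real.exp (-((n : ℝ) ^ (1 / 25 : ℝ)) / (2 * C))) ≤ 1 := by
  have hN : Tendsto (fun n : ℕ => (n : ℝ)) atTop atTop := tendsto_natCast_atTop_atTop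
  have h1 : ∀ᶠ n : ℕ in atTop, dl n < dd q :=
    ((tendsto_rpow_neg_atTop (y := (6 / 25 : ℝ)) (by norm_num)).comp hN).eventually_lt_const hdd
  have h2 : ∀ᶠ n : ℕ in atTop, 4 * C ≤ (n : ℝ) ^ (13 / 50 : ℝ) :=
    ((tendsto_rpow_atTop (y := (13 / 50 : ℝ)) (by norm_num)).comp hN).eventually_ge_atTop _
  have h3 : Tendsto (fun n : ℕ => C * (((n : ℝ) ^ (1 / 25 : ℝ)) ^ (200 : ℝ) *
      Real.exp (-(1 / (2 * C)) * (n : ℝ) ^ (1 / 25 : ℝ)))) atTop (𝓝 (C * 0)) :=
    (((tendsto_rpow_mul_exp_neg_mul_atTop_nhds_zero 200 (1 / (2 * C)) (by positivity)).comp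
      (tendsto_rpow_atTop (y := (1 / 25 : ℝ)) (by norm_num))).comp hN).const_mul C
  rw [mul_zero] at h3
  have h4 := h3.eventually_lt_const (show (0 : ℝ) < 1 by norm_num)
  filter_upwards [h1, h2, h4, eventually_ge_atTop 16] with n e1 e2 e3 e4
  have hn0 : (0 : ℝ) < n := by
    have : 0 < n := by omega
    exact_mod_cast this
  refine ⟨e4, e1.le, ?_, ?_⟩
  · unfold dl
    rw [Real.sqrt_eq_rpow]
    have e5 : (n : ℝ) * (n : ℝ) ^ (-(6 / 25) : ℝ) =
        (n : ℝ) ^ (13 / 50 : ℝ) * (n : ℝ) ^ (1 / 2 : ℝ) := by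
      conv_lhs => rw [← Real.rpow_one (n : ℝ), ← Real.rpow_mul hn0.le, one_mul,
        ← Real.rpow_add hn0]
      rw [← Real.rpow_add hn0]
      norm_num
    rw [e5]
    exact mul_le_mul_of_nonneg_right e2 (by positivity)
  · refine le_of_eq_of_le ?_ e3.le
    rw [← Real.rpow_mul hn0.le, show (1 / 25 : ℝ) * 200 = ((8 : ℕ) : ℝ) by norm_num,
      Real.rpow_natCast]
    have e6 : -((n : ℝ) ^ (1 / 25 : ℝ)) / (2 * C) = -(1 / (2 * C)) * (n : ℝ) ^ (1 / 25 : ℝ) := by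
      ring
    rw [e6]; ring

theorem mean_diff {a t A : ℝ} (ha : a ≤ A) (ht : t ≤ A) (hA : A < 1) :
    |mean a - mean t| ≤ 1 / (1 - A) ^ 2 * |a - t| := by
  have h1 : 0 < 1 - a := by linarith
  have h2 : 0 < 1 - t := by linarith
  have h3 : 0 < 1 - A := by linarith
  have e : mean a - mean t = (a - t) / ((1 - a) * (1 - t)) := by
    unfold mean; field_simp; ring
  rw [e, abs_div, abs_of_pos (mul_pos h1 h2), div_eq_mul_one_div, mul_comm]
  refine mul_le_mul_of_nonneg_right ?_ (abs_nonneg _)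
  apply one_div_le_one_div_of_le (by positivity)
  rw [pow_two]
  exact mul_le_mul (by linarith) (by linarith) h3.le h1.le

theorem vari_le {a A : ℝ} (h0 : 0 ≤ a) (ha : a ≤ A) (hA : A < 1) :
    vari a ≤ 1 / (1 - A) ^ 2 := by
  unfold vari
  have h3 : 0 < 1 - A := by linarith
  apply div_le_div₀ zero_le_one (by linarith) (by positivity)
  exact pow_le_pow_left₀ h3.le (by linarith) 2

theorem measT (hA : AMeas) (m n : ℕ) : Measurable (fun w : ℕ → ℕ → ℕ => (T w m n : ℝ)) := by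
  have h1 := (hA.1 m n).comp (measurable_const (a := zero).prodMk
    ((measurable_const (a := zero)).prodMk (measurable_id (α := ℕ → ℕ → ℕ))))
  exact (measurable_from_top (f := fun k : ℕ => (k : ℝ))).comp h1

theorem pQV (hEX : PEX) (hB : PBurke) (hM : PMom) (hSys : ASys) (hLB : ALawB) (hO : AOps)
    (hA : AMeas) (hD : DSand) : PQV := by
  intro q hq0 hq1
  obtain ⟨t, ht⟩ : ∃ t, t = Real.sqrt q := ⟨_, rfl⟩
  have ht0 : 0 < t := by rw [ht]; exact Real.sqrt_pos.2 hq0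
  have htt : t * t = q := by rw [ht]; exact Real.mul_self_sqrt hq0.le
  have ht1 : t < 1 := by
    by_contra h
    push Not at h
    nlinarith
  have hqt : q < t := by nlinarith
  have hdd : 0 < dd q := by
    unfold dd
    rw [← ht]
    have := lt_min (sub_pos.2 hqt) (sub_pos.2 ht1)
    linarith
  have hdd1 : dd q ≤ (t - q) / 4 := by
    unfold dd
    rw [← ht]
    have := min_le_left (t - q) (1 - t)
    linarith
  have hdd2 : dd q ≤ (1 - t) / 4 := by
    unfold dd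
    rw [← ht]
    have := min_le_right (t - q) (1 - t)
    linarith
  obtain ⟨CE, hCE, hEX⟩ := hEX q hq0 hq1
  obtain ⟨C₈, hC₈, hbox⟩ := box4 hM q hq0 hq1
  obtain ⟨A, hAd⟩ : ∃ A, A = (1 + t) / 2 := ⟨_, rfl⟩
  have hA1 : A < 1 := by linarith
  have h1A : 0 < 1 - A := by linarith
  obtain ⟨V, hV⟩ : ∃ V, V = 1 / (1 - A) ^ 2 := ⟨_, rfl⟩
  have hV0 : 0 < V := by rw [hV]; positivity
  obtain ⟨n₀, hn₀⟩ := eventually_atTop.1 (ev_cond q CE hdd hCE)
  refine ⟨2 * V + 2 * V ^ 2 + C₈ + 1 + mean t ^ 2, by positivity, n₀, ?_⟩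
  intro n hn s hs m n' hm hn' Ω _ μ W hW
  obtain ⟨h16, hδ1, hδ2, hexp⟩ := hn₀ n hn
  rw [← ht]
  have hP := hW.prob
  have hn0 : (0 : ℝ) < n := by
    have : 0 < n := by omega
    exact_mod_cast this
  have hn1 : (1 : ℝ) ≤ n := by
    have : 1 ≤ n := by omega
    exact_mod_cast this
  obtain ⟨δ, hδ⟩ : ∃ δ, δ = dl n := ⟨_, rfl⟩
  rw [← hδ] at hδ1 hδ2
  have hδ0 : 0 < δ := by rw [hδ]; unfold dl; positivity
  have h4s : 4 * s ≤ n := by
    rcases Nat.lt_or_ge s 4 with h | h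
    · omega
    · nlinarith
  have hm1 : n ≤ m + s := by omega
  have hm2 : m ≤ n := by omega
  have hn1' : n ≤ n' + s := by omega
  have hn2' : n' ≤ n := by omega
  have hssq : (s : ℝ) ^ 2 ≤ n := by exact_mod_cast hs
  have hsn : (s : ℝ) ≤ Real.sqrt n := Real.le_sqrt_of_sq_le hssq
  have hn'2 : (n : ℝ) / 2 ≤ n' := by
    have : n ≤ 2 * n' := by omega
    have h5 : (n : ℝ) ≤ 2 * n' := by exact_mod_cast this
    linarith
  have hδn' : 2 * CE * Real.sqrt n ≤ n' * δ := by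
    have h5 : (n : ℝ) / 2 * δ ≤ n' * δ := mul_le_mul_of_nonneg_right hn'2 hδ0.le
    linarith
  have hab1 : CE * |(m : ℝ) - n'| ≤ n' * δ := by
    have h5 : |(m : ℝ) - n'| ≤ s := by
      rw [abs_le]
      have h6 : (m : ℝ) ≤ n' + s := by exact_mod_cast (by omega : m ≤ n' + s)
      have h7 : (n' : ℝ) ≤ m + s := by exact_mod_cast (by omega : n' ≤ m + s)
      constructor <;> linarith
    have h8 : CE * |(m : ℝ) - n'| ≤ CE * Real.sqrt n :=
      mul_le_mul_of_nonneg_left (h5.trans hsn) (by linarith)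
    have h9 : 0 ≤ CE * Real.sqrt n := by positivity
    linarith
  have hab2 : CE * |((m + s : ℕ) : ℝ) - n'| ≤ n' * δ := by
    have h5 : |((m + s : ℕ) : ℝ) - n'| ≤ 2 * s := by
      rw [abs_le]
      push_cast
      have h6 : (m : ℝ) ≤ n' + s := by exact_mod_cast (by omega : m ≤ n' + s)
      have h7 : (n' : ℝ) ≤ m + s := by exact_mod_cast (by omega : n' ≤ m + s)
      have h8 : (0 : ℝ) ≤ s := Nat.cast_nonneg _
      constructor <;> linarith
    have h8 : CE * |((m + s : ℕ) : ℝ) - n'| ≤ CE * (2 * Real.sqrt n) :=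
      mul_le_mul_of_nonneg_left (h5.trans (by linarith)) (by linarith)
    linarith
  -- the exponential term
  obtain ⟨e, he⟩ : ∃ e, e = CE * Real.exp (-((n : ℝ) ^ (1 / 25 : ℝ)) / (2 * CE)) := ⟨_, rfl⟩
  rw [← he] at hexp
  have he0 : 0 ≤ e := by rw [he]; positivity
  have hee : CE * Real.exp (-(δ ^ 4 * n') / CE) ≤ e := by
    rw [he]
    refine mul_le_mul_of_nonneg_left (Real.exp_le_exp.2 ?_) (by linarith)
    have e1 : δ ^ 4 * (n : ℝ) = (n : ℝ) ^ (1 / 25 : ℝ) := by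
      rw [hδ]; unfold dl
      rw [← Real.rpow_natCast, ← Real.rpow_mul hn0.le]
      conv_lhs => rw [← Real.rpow_one (n : ℝ), ← Real.rpow_mul hn0.le, one_mul,
        ← Real.rpow_add hn0]
      norm_num
    have e2 : (n : ℝ) ^ (1 / 25 : ℝ) / 2 ≤ δ ^ 4 * n' := by
      rw [← e1]
      have := mul_le_mul_of_nonneg_left hn'2 (pow_nonneg hδ0.le 4)
      linarith
    have e3 : -((n : ℝ) ^ (1 / 25 : ℝ)) / (2 * CE) = -((n : ℝ) ^ (1 / 25 : ℝ) / 2) / CE := by
      field_simp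
    rw [e3]
    exact div_le_div_of_nonneg_right (neg_le_neg e2) (by linarith)
  obtain ⟨c, hc⟩ : ∃ c, c = (s : ℝ) * mean t := ⟨_, rfl⟩
  have hmt : 0 ≤ mean t := div_nonneg ht0.le (by linarith)
  have hc0 : 0 ≤ c := by rw [hc]; positivity
  rw [← hc]
  -- integrability
  have hTm : ∀ k l, Measurable (fun ω => (Tr W k l ω : ℝ)) := by
    intro k l
    have h5 : Measurable (fun ω => (fun i j => W i j ω : ℕ → ℕ → ℕ)) :=
      measurable_pi_lambda _ fun i => measurable_pi_lambda _ fun j => hW.meas (i, j)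
    exact (measT hA k l).comp h5
  have hTL : ∀ k l, k ≤ 2 * n → l ≤ 2 * n → MemLp (fun ω => (Tr W k l ω : ℝ)) 2 μ := by
    intro k l hk hl
    obtain ⟨S, hS1, hS2, -⟩ := hbox μ W hW k l n hk hl (by omega)
    refine (hS2.mono_exponent (by norm_num)).mono (hTm k l).aestronglyMeasurable
      (Eventually.of_forall fun ω => ?_)
    rw [Real.norm_of_nonneg (Nat.cast_nonneg _)]
    exact (hS1 ω).trans (Real.le_norm_self _)
  have hQL : MemLp (fun ω => (Tr W (m + s) n' ω : ℝ) - Tr W m n' ω) 2 μ :=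
    (hTL (m + s) n' (by omega) (by omega)).sub (hTL m n' (by omega) (by omega))
  refine ⟨hQL, ?_⟩
  have hQi : Integrable (fun ω => ((Tr W (m + s) n' ω : ℝ) - Tr W m n' ω - c) ^ 2) μ :=
    (hQL.sub (memLp_const c)).integrable_sq
  set Fp : (ℕ → ℕ → ℕ) → ℝ := fun w => (max ((T w (m + s) n' : ℝ) - T w m n' - c) 0) ^ 2
    with hFp
  set Fm : (ℕ → ℕ → ℕ) → ℝ := fun w => (max (c - ((T w (m + s) n' : ℝ) - T w m n')) 0) ^ 2
    with hFm
  have hFpm : Measurable Fp :=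
    ((((measT hA (m + s) n').sub (measT hA m n')).sub_const c).max measurable_const).pow_const 2
  have hFmm : Measurable Fm :=
    ((((measT hA (m + s) n').sub (measT hA m n')).const_sub c).max measurable_const).pow_const 2
  have hWme : Measurable (fun ω => (fun i j => W i j ω : ℕ → ℕ → ℕ)) :=
    measurable_pi_lambda _ fun i => measurable_pi_lambda _ fun j => hW.meas (i, j)
  have hsum : ∀ x : ℝ, (x - c) ^ 2 = (max (x - c) 0) ^ 2 + (max (c - x) 0) ^ 2 := by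
    intro x
    rcases le_total x c with h | h
    · rw [max_eq_right (by linarith), max_eq_left (by linarith)]; ring
    · rw [max_eq_left (by linarith), max_eq_right (by linarith)]; ring
  have hi1 : Integrable (fun ω => Fp (fun i j => W i j ω)) μ := by
    refine hQi.mono (hFpm.comp hWme).aestronglyMeasurable (Eventually.of_forall fun ω => ?_)
    rw [Real.norm_of_nonneg (by positivity), Real.norm_of_nonneg (by positivity)]
    have := hsum ((Tr W (m + s) n' ω : ℝ) - Tr W m n' ω)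
    rw [this]
    exact le_add_of_nonneg_right (by positivity)
  have hi2 : Integrable (fun ω => Fm (fun i j => W i j ω)) μ := by
    refine hQi.mono (hFmm.comp hWme).aestronglyMeasurable (Eventually.of_forall fun ω => ?_)
    rw [Real.norm_of_nonneg (by positivity), Real.norm_of_nonneg (by positivity)]
    have := hsum ((Tr W (m + s) n' ω : ℝ) - Tr W m n' ω)
    rw [this]
    exact le_add_of_nonneg_left (by positivity)
  have hsplit : ∫ ω, ((Tr W (m + s) n' ω : ℝ) - Tr W m n' ω - c) ^ 2 ∂μ =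
      ∫ ω, Fp (fun i j => W i j ω) ∂μ + ∫ ω, Fm (fun i j => W i j ω) ∂μ := by
    rw [← integral_add hi1 hi2]
    refine integral_congr_ae (Eventually.of_forall fun ω => ?_)
    exact hsum ((Tr W (m + s) n' ω : ℝ) - Tr W m n' ω)
  rw [hsplit]
  -- the two systems
  have ha1 : q < t + δ := by linarith
  have ha1' : t + δ < 1 := by linarith
  have ha1A : t + δ ≤ A := by linarith
  have ha2 : q < t - δ := by linarith
  have ha2' : t - δ < 1 := by linarith
  have ha2A : t - δ ≤ A := by linarith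
  have htA : t ≤ A := by linarith
  have b1 : ∫ ω, Fp (fun i j => W i j ω) ∂μ ≤ s * V + s ^ 2 * (V ^ 2 * δ ^ 2) + C₈ + 1 := by
    obtain ⟨Ω₁, _, μ₁, I, J, W₁, X, hsys⟩ := hSys (κ := Empty) q (t + δ) (fun _ => 0) hq0 ha1
      ha1' (fun k => ⟨le_rfl, one_pos⟩)
    obtain ⟨h0, hBk⟩ := (hO μ₁ q).1 (t + δ) I J W₁ _ X hsys
    have hEq := (hLB μ μ₁ q W W₁ hW hBk Fp hFpm).integral_eq
    rw [hEq]
    obtain ⟨S, hS1, hS2, hS3⟩ := hbox μ₁ W₁ hBk (m + s) n' n (by omega) (by omega) (by omega)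
    have hup := upper hB hM hA hD hq0 ha1 ha1' h0 m s n' c ((n : ℝ) ^ 4) C₈ hc0 (by positivity)
      S hS1 hS2 (by rw [← pow_mul]; exact hS3)
    refine hup.trans ?_
    have hpe := (hEX μ₁ δ I J W₁ m n' hδ0 hδ1 (by omega) (by omega) (by omega) hab1).1
      (by rw [← ht]; exact h0)
    have e1 : ((n : ℝ) ^ 4) ^ 2 * μ₁.real {ω | Gr I zr W₁ m n' ω < Gr zr J W₁ m n' ω} ≤ 1 := by
      rw [← pow_mul]
      refine le_trans (mul_le_mul_of_nonneg_left (hpe.trans hee) (by positivity)) ?_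
      exact hexp
    have e2 : (s : ℝ) * vari (t + δ) ≤ s * V := by
      rw [hV]
      exact mul_le_mul_of_nonneg_left (vari_le (by linarith) ha1A hA1) (Nat.cast_nonneg _)
    have e3 : ((s : ℝ) * mean (t + δ) - c) ^ 2 ≤ s ^ 2 * (V ^ 2 * δ ^ 2) := by
      rw [hc, ← mul_sub, mul_pow]
      refine mul_le_mul_of_nonneg_left ?_ (by positivity)
      have h5 := mean_diff ha1A htA hA1
      rw [← hV, add_sub_cancel_left, abs_of_pos hδ0] at h5
      rw [← sq_abs, ← mul_pow]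
      exact pow_le_pow_left₀ (abs_nonneg _) h5 2
    linarith
  have b2 : ∫ ω, Fm (fun i j => W i j ω) ∂μ ≤ s * V + s ^ 2 * (V ^ 2 * δ ^ 2) + mean t ^ 2 := by
    obtain ⟨Ω₁, _, μ₁, I, J, W₁, X, hsys⟩ := hSys (κ := Empty) q (t - δ) (fun _ => 0) hq0 ha2
      ha2' (fun k => ⟨le_rfl, one_pos⟩)
    obtain ⟨h0, hBk⟩ := (hO μ₁ q).1 (t - δ) I J W₁ _ X hsys
    have hEq := (hLB μ μ₁ q W W₁ hW hBk Fm hFmm).integral_eq
    rw [hEq]
    have hlo := lower hB hM hA hD hq0 ha2 ha2' h0 m s n' c hc0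
    refine hlo.trans ?_
    have hpe := (hEX μ₁ δ I J W₁ (m + s) n' hδ0 hδ1 (by omega) (by omega) (by omega) hab2).2
      (by rw [← ht]; exact h0)
    have e1 : c ^ 2 * μ₁.real {ω | Gr zr J W₁ (m + s) n' ω < Gr I zr W₁ (m + s) n' ω} ≤
        mean t ^ 2 := by
      have h5 : c ^ 2 ≤ mean t ^ 2 * (n : ℝ) ^ 8 := by
        rw [hc, mul_pow, mul_comm]
        refine mul_le_mul_of_nonneg_left ?_ (by positivity)
        refine hssq.trans ?_
        exact le_self_pow₀ hn1 (by norm_num)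
      calc c ^ 2 * μ₁.real {ω | Gr zr J W₁ (m + s) n' ω < Gr I zr W₁ (m + s) n' ω} ≤
            (mean t ^ 2 * (n : ℝ) ^ 8) * e :=
            mul_le_mul h5 (hpe.trans hee) measureReal_nonneg (by positivity)
        _ = mean t ^ 2 * ((n : ℝ) ^ 8 * e) := by ring
        _ ≤ mean t ^ 2 * 1 := mul_le_mul_of_nonneg_left hexp (by positivity)
        _ = mean t ^ 2 := mul_one _
    have e2 : (s : ℝ) * vari (t - δ) ≤ s * V := by
      rw [hV]
      exact mul_le_mul_of_nonneg_left (vari_le (by linarith) ha2A hA1) (Nat.cast_nonneg _)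
    have e3 : ((s : ℝ) * mean (t - δ) - c) ^ 2 ≤ s ^ 2 * (V ^ 2 * δ ^ 2) := by
      rw [hc, ← mul_sub, mul_pow]
      refine mul_le_mul_of_nonneg_left ?_ (by positivity)
      have h5 := mean_diff ha2A htA hA1
      rw [← hV, sub_sub_cancel_left, abs_neg, abs_of_pos hδ0] at h5
      rw [← sq_abs, ← mul_pow]
      exact pow_le_pow_left₀ (abs_nonneg _) h5 2
    linarith
  -- powers
  obtain ⟨R, hR⟩ : ∃ R, R = (n : ℝ) ^ (11 / 20 : ℝ) := ⟨_, rfl⟩
  rw [← hR]
  have r1 : 1 ≤ R := by rw [hR]; exact Real.one_le_rpow hn1 (by norm_num)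
  have r2 : (s : ℝ) ≤ R := by
    refine hsn.trans ?_
    rw [hR, Real.sqrt_eq_rpow]
    exact Real.rpow_le_rpow_of_exponent_le hn1 (by norm_num)
  have r3 : (s : ℝ) ^ 2 * δ ^ 2 ≤ R := by
    have e1 : (n : ℝ) * δ ^ 2 = (n : ℝ) ^ (13 / 25 : ℝ) := by
      rw [hδ]; unfold dl
      rw [← Real.rpow_natCast, ← Real.rpow_mul hn0.le]
      conv_lhs => rw [← Real.rpow_one (n : ℝ), ← Real.rpow_mul hn0.le, one_mul,
        ← Real.rpow_add hn0]
      norm_num
    calc (s : ℝ) ^ 2 * δ ^ 2 ≤ n * δ ^ 2 := mul_le_mul_of_nonneg_right hssq (by positivity)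
      _ = (n : ℝ) ^ (13 / 25 : ℝ) := e1
      _ ≤ R := by
        rw [hR]
        exact Real.rpow_le_rpow_of_exponent_le hn1 (by norm_num)
  have r4 : (s : ℝ) * V ≤ V * R := by
    rw [mul_comm]; exact mul_le_mul_of_nonneg_left r2 hV0.le
  have r5 : (s : ℝ) ^ 2 * (V ^ 2 * δ ^ 2) ≤ V ^ 2 * R := by
    calc (s : ℝ) ^ 2 * (V ^ 2 * δ ^ 2) = V ^ 2 * (s ^ 2 * δ ^ 2) := by ring
      _ ≤ _ := mul_le_mul_of_nonneg_left r3 (by positivity)
  have r6 : C₈ + 1 + mean t ^ 2 ≤ (C₈ + 1 + mean t ^ 2) * R :=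
    le_mul_of_one_le_right (by positivity) r1
  calc _ ≤ (s * V + s ^ 2 * (V ^ 2 * δ ^ 2) + C₈ + 1) +
        (s * V + s ^ 2 * (V ^ 2 * δ ^ 2) + mean t ^ 2) := add_le_add b1 b2
    _ ≤ _ := by linarith

end Pool.Agent.W74.LP
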